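import Mathlib

open Filter Topology

namespace Pool.Agent.Results.MP_9b1654_pr.MLBelowThreshold

open Finset

/-- The pairs `u < v` of vertices of `[n]`. -/
def pairs (n : ℕ) : Finset (Fin n × Fin n) := Finset.univ.filter (fun p => p.1 < p.2)

/-- The conditional edge probability `min(1, M_ij / n)`. -/
noncomputable def edgeProb {k : ℕ} (n : ℕ) (M : Matrix (Fin k) (Fin k) ℝ) (i j : Fin k) : ℝ :=
  min 1 (M i j / n)

open Classical in
/-- The conditional probability `P(G | σ)` of the graph `G` given the labelling `σ`: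
independent edges, the pair `u < v` being an edge with probability `min(1, M_{σ(u)σ(v)} / n)`. -/
noncomputable def condProb {k : ℕ} (n : ℕ) (M : Matrix (Fin k) (Fin k) ℝ)
    (G : SimpleGraph (Fin n)) (σ : Fin n → Fin k) : ℝ :=
  ∏ p ∈ pairs n, if G.Adj p.1 p.2 then edgeProb n M (σ p.1) (σ p.2)
    else 1 - edgeProb n M (σ p.1) (σ p.2)

/-- The joint probability of the hidden labelling `σ` (i.i.d. with law `π`) and the graph `G`. -/
noncomputable def joint {k : ℕ} (n : ℕ) (π : Fin k → ℝ) (M : Matrix (Fin k) (Fin k) ℝ)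
    (σ : Fin n → Fin k) (G : SimpleGraph (Fin n)) : ℝ :=
  (∏ v, π (σ v)) * condProb n M G σ

open Classical in
/-- The probability of an event under the stochastic block model `SBM(n,k,π,M)`. -/
noncomputable def prob {k : ℕ} (n : ℕ) (π : Fin k → ℝ) (M : Matrix (Fin k) (Fin k) ℝ)
    (E : (Fin n → Fin k) → SimpleGraph (Fin n) → Prop) : ℝ :=
  ∑ σ : Fin n → Fin k, ∑ G : SimpleGraph (Fin n), if E σ G then joint n π M σ G else 0

/-- The overlap of the labelling `s` with the true labelling `σ`, up to a permutation of labels. -/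
noncomputable def overlap {k n : ℕ} (s σ : Fin n → Fin k) : ℝ :=
  ⨆ τ : Equiv.Perm (Fin k), ((Finset.univ.filter (fun v => τ (s v) = σ v)).card : ℝ) / n

/-- An estimator: a map from graphs on `[n]` to labellings, for every `n`. -/
abbrev Estimator (k : ℕ) := (n : ℕ) → SimpleGraph (Fin n) → (Fin n → Fin k)

/-- The estimator achieves non-trivial correlation at `(k, π, M)`. -/
def NonTrivial {k : ℕ} (π : Fin k → ℝ) (M : Matrix (Fin k) (Fin k) ℝ) (s : Estimator k) : Prop :=
  ∃ ε : ℝ, 0 < ε ∧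
    Tendsto (fun n => prob n π M (fun σ G => (⨆ i, π i) + ε ≤ overlap (s n G) σ)) atTop (𝓝 1)

/-- `s` is a maximum-likelihood estimator (for some way of breaking ties). -/
def IsML {k : ℕ} (M : Matrix (Fin k) (Fin k) ℝ) (s : Estimator k) : Prop :=
  ∀ (n : ℕ) (G : SimpleGraph (Fin n)) (σ' : Fin n → Fin k),
    condProb n M G σ' ≤ condProb n M G (s n G)

/-! ### Sums over graphs -/

open Classical in
theorem sum_graph (n : ℕ) (a c : Fin n × Fin n → ℝ) :
    ∑ G : SimpleGraph (Fin n), ∏ p ∈ pairs n, (if G.Adj p.1 p.2 then a p else c p)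
      = ∏ p ∈ pairs n, (a p + c p) := by
  rw [Finset.prod_add]
  refine Finset.sum_bij' (fun G _ => (pairs n).filter (fun p => G.Adj p.1 p.2))
    (fun t _ => SimpleGraph.fromRel (fun u v => (u, v) ∈ t)) ?_ ?_ ?_ ?_ ?_
  · intro G _
    simp
  · intro t _
    simp
  · intro G _
    ext u v
    simp only [SimpleGraph.fromRel_adj, pairs, Finset.mem_filter, Finset.mem_univ, true_and]
    constructor
    · rintro ⟨_, h | h⟩
      · exact h.2
      · exact h.2.symm
    · intro h
      refine ⟨h.ne, ?_⟩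
      rcases lt_or_gt_of_ne h.ne with h1 | h1
      · exact Or.inl ⟨h1, h⟩
      · exact Or.inr ⟨h1, h.symm⟩
  · intro t ht
    rw [Finset.mem_powerset] at ht
    ext p
    simp only [SimpleGraph.fromRel_adj, Finset.mem_filter]
    constructor
    · rintro ⟨hp, _, h | h⟩
      · exact h
      · exfalso
        have h2 := ht h
        simp only [pairs, Finset.mem_filter, Finset.mem_univ, true_and] at h2 hp
        exact absurd hp (not_lt.mpr h2.le)
    · intro h
      have h2 := ht h
      refine ⟨h2, ?_, Or.inl h⟩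
      simp only [pairs, Finset.mem_filter, Finset.mem_univ, true_and] at h2
      exact h2.ne
  · intro G _
    rw [Finset.prod_ite]
    congr 1
    apply Finset.prod_congr _ (fun _ _ => rfl)
    ext p
    simp only [Finset.mem_filter, Finset.mem_sdiff, not_and]
    tauto

/-! ### Isolated vertices -/

/-- All vertices of `S` are isolated in `G`. -/
def isoSet {n : ℕ} (G : SimpleGraph (Fin n)) (S : Finset (Fin n)) : Prop :=
  ∀ v ∈ S, ∀ u, ¬ G.Adj v u

open Classical in
theorem ite_iso_condProb {k n : ℕ} (M : Matrix (Fin k) (Fin k) ℝ) (G : SimpleGraph (Fin n))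
    (σ : Fin n → Fin k) (S : Finset (Fin n)) :
    (if isoSet G S then condProb n M G σ else 0) =
      ∏ p ∈ pairs n, if G.Adj p.1 p.2 then
          (if p.1 ∈ S ∨ p.2 ∈ S then 0 else edgeProb n M (σ p.1) (σ p.2))
        else 1 - edgeProb n M (σ p.1) (σ p.2) := by
  split_ifs with h
  · unfold condProb
    apply Finset.prod_congr rfl
    intro p _
    by_cases hp : G.Adj p.1 p.2
    · rw [if_pos hp, if_pos hp, if_neg]
      rintro (h1 | h1)
      · exact h _ h1 _ hp
      · exact h _ h1 _ hp.symm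
    · rw [if_neg hp, if_neg hp]
  · symm
    unfold isoSet at h
    push Not at h
    obtain ⟨v, hv, u, huv⟩ := h
    rcases lt_or_gt_of_ne huv.ne with h1 | h1
    · apply Finset.prod_eq_zero (i := (v, u))
      · simp [pairs, h1]
      · simp [huv, hv]
    · apply Finset.prod_eq_zero (i := (u, v))
      · simpa [pairs] using h1
      · simp [huv.symm, hv]

open Classical in
theorem sum_iso_condProb {k n : ℕ} (M : Matrix (Fin k) (Fin k) ℝ)
    (σ : Fin n → Fin k) (S : Finset (Fin n)) :
    ∑ G : SimpleGraph (Fin n), (if isoSet G S then condProb n M G σ else 0) =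
      ∏ p ∈ pairs n, (if p.1 ∈ S ∨ p.2 ∈ S then 1 - edgeProb n M (σ p.1) (σ p.2) else 1) := by
  have : ∀ G : SimpleGraph (Fin n), (if isoSet G S then condProb n M G σ else 0) =
      ∏ p ∈ pairs n, if G.Adj p.1 p.2 then
          (fun p : Fin n × Fin n => if p.1 ∈ S ∨ p.2 ∈ S then 0 else edgeProb n M (σ p.1) (σ p.2)) p
        else (fun p : Fin n × Fin n => 1 - edgeProb n M (σ p.1) (σ p.2)) p :=
    fun G => ite_iso_condProb M G σ S
  simp_rw [this]
  rw [sum_graph]
  apply Finset.prod_congr rfl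
  intro p _
  split_ifs <;> ring

/-- Products over the pairs meeting `w` whose other end lies in `T`. -/
theorem prod_pairs_meeting {n : ℕ} (F : Fin n → Fin n → ℝ) (hF : ∀ u v, F u v = F v u)
    (w : Fin n) (T : Finset (Fin n)) :
    ∏ p ∈ pairs n, (if (p.1 = w ∧ p.2 ∈ T) ∨ (p.2 = w ∧ p.1 ∈ T) then F p.1 p.2 else 1)
      = ∏ u ∈ T.erase w, F u w := by
  rw [← Finset.prod_filter]
  symm
  refine Finset.prod_bij' (fun u _ => if u < w then (u, w) else (w, u))
    (fun p _ => if p.1 = w then p.2 else p.1) ?_ ?_ ?_ ?_ ?_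
  · intro u hu
    rw [Finset.mem_erase] at hu
    by_cases h : u < w
    · simp [h, pairs, hu.2]
    · have h2 : w < u := lt_of_le_of_ne (not_lt.mp h) (Ne.symm hu.1)
      simp [h, pairs, hu.2, h2]
  · intro p hp
    simp only [pairs, Finset.mem_filter, Finset.mem_univ, true_and] at hp
    obtain ⟨h1, h2 | h2⟩ := hp
    · simp only [h2.1, if_true, Finset.mem_erase]
      rw [h2.1] at h1
      exact ⟨h1.ne', h2.2⟩
    · rw [h2.1] at h1
      simp only [h1.ne, if_false, Finset.mem_erase]
      exact ⟨h1.ne, h2.2⟩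
  · intro u hu
    rw [Finset.mem_erase] at hu
    by_cases h : u < w
    · simp [h, hu.1]
    · simp [h]
  · intro p hp
    simp only [pairs, Finset.mem_filter, Finset.mem_univ, true_and] at hp
    obtain ⟨h1, h2 | h2⟩ := hp
    · rw [h2.1] at h1
      simp only [h2.1, if_true, not_lt.mpr h1.le, if_false]
      ext <;> simp [h2.1]
    · rw [h2.1] at h1
      simp only [h1.ne, if_false, h1, if_true]
      ext <;> simp [h2.1]
  · intro u hu
    by_cases h : u < w
    · simp [h]
    · simp [h, hF u w]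

theorem edgeProb_symm {k n : ℕ} {M : Matrix (Fin k) (Fin k) ℝ} (hM : M.IsSymm) (i j : Fin k) :
    edgeProb n M i j = edgeProb n M j i := by
  unfold edgeProb
  rw [hM.apply]

theorem prod_iso_one {k n : ℕ} {M : Matrix (Fin k) (Fin k) ℝ} (hM : M.IsSymm)
    (σ : Fin n → Fin k) (v : Fin n) :
    ∏ p ∈ pairs n, (if p.1 ∈ ({v} : Finset (Fin n)) ∨ p.2 ∈ ({v} : Finset (Fin n)) then
      1 - edgeProb n M (σ p.1) (σ p.2) else 1) =
      ∏ u ∈ Finset.univ.erase v, (1 - edgeProb n M (σ u) (σ v)) := by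
  rw [← prod_pairs_meeting (fun u v => 1 - edgeProb n M (σ u) (σ v))
    (fun u v => by rw [edgeProb_symm hM]) v Finset.univ]
  apply Finset.prod_congr rfl
  intro p _
  simp

theorem prod_iso_two {k n : ℕ} {M : Matrix (Fin k) (Fin k) ℝ} (hM : M.IsSymm)
    (σ : Fin n → Fin k) (v w : Fin n) (hvw : v ≠ w) :
    ∏ p ∈ pairs n, (if p.1 ∈ ({v, w} : Finset (Fin n)) ∨ p.2 ∈ ({v, w} : Finset (Fin n)) then
      1 - edgeProb n M (σ p.1) (σ p.2) else 1) =
      (∏ u ∈ Finset.univ.erase v, (1 - edgeProb n M (σ u) (σ v))) *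
      ∏ u ∈ (Finset.univ.erase v).erase w, (1 - edgeProb n M (σ u) (σ w)) := by
  rw [← prod_pairs_meeting (fun u v => 1 - edgeProb n M (σ u) (σ v))
    (fun u v => by rw [edgeProb_symm hM]) v Finset.univ,
    ← prod_pairs_meeting (fun u v => 1 - edgeProb n M (σ u) (σ v))
    (fun u v => by rw [edgeProb_symm hM]) w (Finset.univ.erase v), ← Finset.prod_mul_distrib]
  apply Finset.prod_congr rfl
  intro p hp
  simp only [pairs, Finset.mem_filter, Finset.mem_univ, true_and] at hp
  simp only [Finset.mem_insert, Finset.mem_singleton, Finset.mem_univ, and_true,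
    Finset.mem_erase, ne_eq]
  by_cases h1 : p.1 = v
  · have h2 : p.2 ≠ v := by rw [← h1]; exact hp.ne'
    simp [h1, h2, hvw]
  · by_cases h2 : p.2 = v
    · simp [h1, h2, hvw]
    · simp [h1, h2]

/-! ### Sums over labellings -/

theorem sum_prod_label {k n : ℕ} (g : Fin n → Fin k → ℝ) :
    ∑ σ : Fin n → Fin k, ∏ x, g x (σ x) = ∏ x, ∑ j, g x j := by
  rw [Finset.prod_univ_sum]
  simp

/-- auxiliary factor -/
noncomputable def g1 {k n : ℕ} (π : Fin k → ℝ) (r : Fin k → Fin k → ℝ) (i : Fin k)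
    (v : Fin n) (x : Fin n) (j : Fin k) : ℝ :=
  if x = v then (if j = i then π j else 0) else π j * r j i

/-- auxiliary factor -/
noncomputable def g2 {k n : ℕ} (π : Fin k → ℝ) (r : Fin k → Fin k → ℝ) (i : Fin k)
    (v w : Fin n) (x : Fin n) (j : Fin k) : ℝ :=
  if x = v then (if j = i then π j else 0) else
        if x = w then (if j = i then π j else 0) else π j * r j i ^ 2

theorem sum_label_one {k n : ℕ} (π : Fin k → ℝ) (r : Fin k → Fin k → ℝ) (i : Fin k)
    (v : Fin n) :
    ∑ σ : Fin n → Fin k, (if σ v = i then (∏ x, π (σ x)) *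
      ∏ u ∈ Finset.univ.erase v, r (σ u) (σ v) else 0) =
      π i * (∑ j, π j * r j i) ^ (n - 1) := by
  have h1 : ∀ σ : Fin n → Fin k, (if σ v = i then (∏ x, π (σ x)) *
      ∏ u ∈ Finset.univ.erase v, r (σ u) (σ v) else 0) =
      ∏ x, g1 π r i v x (σ x) := by
    intro σ
    rw [← Finset.mul_prod_erase Finset.univ (fun x => g1 π r i v x (σ x)) (Finset.mem_univ v)]
    have h2 : g1 π r i v v (σ v) = if σ v = i then π (σ v) else 0 := by simp [g1]
    have h3 : ∏ x ∈ Finset.univ.erase v, g1 π r i v x (σ x) =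
        ∏ x ∈ Finset.univ.erase v, (π (σ x) * r (σ x) i) := by
      apply Finset.prod_congr rfl
      intro u hu
      simp [g1, Finset.ne_of_mem_erase hu]
    rw [h2, h3]
    split_ifs with h
    · rw [← Finset.mul_prod_erase Finset.univ (fun x => π (σ x)) (Finset.mem_univ v), mul_assoc,
        ← Finset.prod_mul_distrib, h]
    · rw [zero_mul]
  rw [Finset.sum_congr rfl (fun σ _ => h1 σ), sum_prod_label,
    ← Finset.mul_prod_erase Finset.univ (fun x => ∑ j, g1 π r i v x j) (Finset.mem_univ v)]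
  have h4 : ∑ j, g1 π r i v v j = π i := by simp [g1]
  have h5 : ∏ x ∈ Finset.univ.erase v, ∑ j, g1 π r i v x j = (∑ j, π j * r j i) ^ (n - 1) := by
    rw [Finset.prod_congr rfl (g := fun _ => ∑ j, π j * r j i)]
    · rw [Finset.prod_const, Finset.card_erase_of_mem (Finset.mem_univ v)]
      simp
    · intro u hu
      simp [g1, Finset.ne_of_mem_erase hu]
  rw [h4, h5]

theorem sum_label_two {k n : ℕ} (π : Fin k → ℝ) (r : Fin k → Fin k → ℝ) (i : Fin k)
    (v w : Fin n) (hvw : v ≠ w) :
    ∑ σ : Fin n → Fin k, (if σ v = i ∧ σ w = i then (∏ x, π (σ x)) *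
      ((∏ u ∈ Finset.univ.erase v, r (σ u) (σ v)) *
        ∏ u ∈ (Finset.univ.erase v).erase w, r (σ u) (σ w)) else 0) =
      π i ^ 2 * r i i * (∑ j, π j * r j i ^ 2) ^ (n - 2) := by
  have hw : w ∈ Finset.univ.erase v := by simp [hvw.symm]
  have h1 : ∀ σ : Fin n → Fin k, (if σ v = i ∧ σ w = i then (∏ x, π (σ x)) *
      ((∏ u ∈ Finset.univ.erase v, r (σ u) (σ v)) *
        ∏ u ∈ (Finset.univ.erase v).erase w, r (σ u) (σ w)) else 0) =
      r i i * ∏ x, g2 π r i v w x (σ x) := by
    intro σ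
    rw [← Finset.mul_prod_erase Finset.univ (fun x => g2 π r i v w x (σ x))
      (Finset.mem_univ v), ← Finset.mul_prod_erase (Finset.univ.erase v)
        (fun x => g2 π r i v w x (σ x)) hw]
    have e1 : g2 π r i v w v (σ v) = if σ v = i then π (σ v) else 0 := by simp [g2]
    have e2 : g2 π r i v w w (σ w) = if σ w = i then π (σ w) else 0 := by
      simp [g2]
    have e3 : ∏ x ∈ (Finset.univ.erase v).erase w, g2 π r i v w x (σ x) =
        ∏ x ∈ (Finset.univ.erase v).erase w, (π (σ x) * r (σ x) i ^ 2) := by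
      apply Finset.prod_congr rfl
      intro u hu
      simp [g2, Finset.ne_of_mem_erase hu, Finset.ne_of_mem_erase (Finset.mem_of_mem_erase hu)]
    rw [e1, e2, e3]
    by_cases h : σ v = i
    · by_cases h' : σ w = i
      · rw [if_pos ⟨h, h'⟩, if_pos h, if_pos h']
        rw [← Finset.mul_prod_erase Finset.univ (fun x => π (σ x)) (Finset.mem_univ v),
          ← Finset.mul_prod_erase (Finset.univ.erase v) (fun x => π (σ x)) hw,
          ← Finset.mul_prod_erase (Finset.univ.erase v) (fun u => r (σ u) (σ v)) hw]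
        rw [Finset.prod_mul_distrib, Finset.prod_pow, h, h']
        ring
      · rw [if_neg (fun hh => h' hh.2), if_neg h']
        ring
    · rw [if_neg (fun hh => h hh.1), if_neg h]
      ring
  rw [Finset.sum_congr rfl (fun σ _ => h1 σ), ← Finset.mul_sum, sum_prod_label,
    ← Finset.mul_prod_erase Finset.univ (fun x => ∑ j, g2 π r i v w x j) (Finset.mem_univ v),
    ← Finset.mul_prod_erase (Finset.univ.erase v) (fun x => ∑ j, g2 π r i v w x j) hw]
  have h4 : ∑ j, g2 π r i v w v j = π i := by simp [g2]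
  have h4' : ∑ j, g2 π r i v w w j = π i := by simp [g2]
  have h5 : ∏ x ∈ (Finset.univ.erase v).erase w, ∑ j, g2 π r i v w x j =
      (∑ j, π j * r j i ^ 2) ^ (n - 2) := by
    rw [Finset.prod_congr rfl (g := fun _ => ∑ j, π j * r j i ^ 2)]
    · rw [Finset.prod_const, Finset.card_erase_of_mem hw,
        Finset.card_erase_of_mem (Finset.mem_univ v)]
      simp [Nat.sub_sub]
    · intro u hu
      simp [g2, Finset.ne_of_mem_erase hu, Finset.ne_of_mem_erase (Finset.mem_of_mem_erase hu)]
  rw [h4, h4', h5]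
  ring

/-! ### Expectations -/

/-- Expectation under the model. -/
noncomputable def Ex {k : ℕ} (n : ℕ) (π : Fin k → ℝ) (M : Matrix (Fin k) (Fin k) ℝ)
    (f : (Fin n → Fin k) → SimpleGraph (Fin n) → ℝ) : ℝ :=
  ∑ σ : Fin n → Fin k, ∑ G : SimpleGraph (Fin n), f σ G * joint n π M σ G

theorem sum_condProb {k n : ℕ} (M : Matrix (Fin k) (Fin k) ℝ) (σ : Fin n → Fin k) :
    ∑ G : SimpleGraph (Fin n), condProb n M G σ = 1 := by
  classical
  have h := sum_iso_condProb M σ ∅
  have h2 : ∀ G : SimpleGraph (Fin n), isoSet G ∅ := fun G v hv => by simp at hv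
  simpa [h2] using h

open Classical in
theorem Ex_label_one {k n : ℕ} {π : Fin k → ℝ} (hπ : ∑ i, π i = 1) (M : Matrix (Fin k) (Fin k) ℝ)
    (i : Fin k) (v : Fin n) :
    Ex n π M (fun σ _ => if σ v = i then 1 else 0) = π i := by
  unfold Ex joint
  have h := sum_label_one π (fun _ _ => 1) i v
  simp only [mul_one, Finset.prod_const_one, hπ, one_pow] at h
  rw [← h]
  apply Finset.sum_congr rfl
  intro σ _
  by_cases hs : σ v = i
  · simp only [hs, if_true, one_mul]
    rw [← Finset.mul_sum, sum_condProb, mul_one]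
  · simp [hs]

open Classical in
theorem Ex_label_two {k n : ℕ} {π : Fin k → ℝ} (hπ : ∑ i, π i = 1) (M : Matrix (Fin k) (Fin k) ℝ)
    (i : Fin k) (v w : Fin n) (hvw : v ≠ w) :
    Ex n π M (fun σ _ => if σ v = i ∧ σ w = i then 1 else 0) = π i ^ 2 := by
  unfold Ex joint
  have h := sum_label_two π (fun _ _ => 1) i v w hvw
  simp only [mul_one, one_pow, Finset.prod_const_one, hπ] at h
  rw [← h]
  apply Finset.sum_congr rfl
  intro σ _
  by_cases hs : σ v = i ∧ σ w = i
  · simp only [hs, and_self, if_true, one_mul]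
    rw [← Finset.mul_sum, sum_condProb, mul_one]
  · simp only [hs, if_false, zero_mul, Finset.sum_const_zero]

open Classical in
theorem Ex_iso_one {k n : ℕ} {π : Fin k → ℝ} {M : Matrix (Fin k) (Fin k) ℝ} (hM : M.IsSymm)
    (i : Fin k) (v : Fin n) :
    Ex n π M (fun σ G => if σ v = i ∧ isoSet G {v} then 1 else 0) =
      π i * (∑ j, π j * (1 - edgeProb n M j i)) ^ (n - 1) := by
  unfold Ex joint
  rw [← sum_label_one π (fun a b => 1 - edgeProb n M a b) i v]
  apply Finset.sum_congr rfl
  intro σ _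
  by_cases h : σ v = i
  · rw [if_pos h, ← prod_iso_one hM σ v, ← sum_iso_condProb, Finset.mul_sum]
    apply Finset.sum_congr rfl
    intro G _
    by_cases h2 : isoSet G {v}
    · simp [h, h2]
    · simp [h, h2]
  · simp [h]

open Classical in
theorem Ex_iso_two {k n : ℕ} {π : Fin k → ℝ} {M : Matrix (Fin k) (Fin k) ℝ} (hM : M.IsSymm)
    (i : Fin k) (v w : Fin n) (hvw : v ≠ w) :
    Ex n π M (fun σ G => if (σ v = i ∧ isoSet G {v}) ∧ (σ w = i ∧ isoSet G {w}) then 1 else 0) =
      π i ^ 2 * (1 - edgeProb n M i i) *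
        (∑ j, π j * (1 - edgeProb n M j i) ^ 2) ^ (n - 2) := by
  unfold Ex joint
  rw [← sum_label_two π (fun a b => 1 - edgeProb n M a b) i v w hvw]
  apply Finset.sum_congr rfl
  intro σ _
  by_cases h : σ v = i ∧ σ w = i
  · rw [if_pos h, ← prod_iso_two hM σ v w hvw, ← sum_iso_condProb, Finset.mul_sum]
    apply Finset.sum_congr rfl
    intro G _
    have h3 : isoSet G {v, w} ↔ isoSet G {v} ∧ isoSet G {w} := by
      simp [isoSet]
    by_cases h2 : isoSet G {v, w}
    · have h4 := h3.mp h2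
      simp [h.1, h.2, h2, h4.1, h4.2]
    · have h4 : ¬ ((σ v = i ∧ isoSet G {v}) ∧ (σ w = i ∧ isoSet G {w})) := by
        intro h5
        exact h2 (h3.mpr ⟨h5.1.2, h5.2.2⟩)
      simp only [h4, h2, if_false, zero_mul, mul_zero]
  · rw [if_neg h]
    apply Finset.sum_eq_zero
    intro G _
    have h4 : ¬ ((σ v = i ∧ isoSet G {v}) ∧ (σ w = i ∧ isoSet G {w})) := by
      intro h5
      exact h ⟨h5.1.1, h5.2.1⟩
    simp only [h4, if_false, zero_mul]

theorem Ex_one {k n : ℕ} {π : Fin k → ℝ} (hπ : ∑ i, π i = 1) (M : Matrix (Fin k) (Fin k) ℝ) :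
    Ex n π M (fun _ _ => 1) = 1 := by
  unfold Ex joint
  simp only [one_mul]
  have h : ∀ σ : Fin n → Fin k, ∑ G : SimpleGraph (Fin n), (∏ v, π (σ v)) * condProb n M G σ =
      ∏ v, π (σ v) := by
    intro σ
    rw [← Finset.mul_sum, sum_condProb, mul_one]
  rw [Finset.sum_congr rfl (fun σ _ => h σ), sum_prod_label (fun _ j => π j)]
  simp [hπ]

theorem Ex_add {k n : ℕ} (π : Fin k → ℝ) (M : Matrix (Fin k) (Fin k) ℝ)
    (f g : (Fin n → Fin k) → SimpleGraph (Fin n) → ℝ) :
    Ex n π M (fun σ G => f σ G + g σ G) = Ex n π M f + Ex n π M g := by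
  unfold Ex
  simp only [add_mul, Finset.sum_add_distrib]

theorem Ex_smul {k n : ℕ} (π : Fin k → ℝ) (M : Matrix (Fin k) (Fin k) ℝ) (c : ℝ)
    (f : (Fin n → Fin k) → SimpleGraph (Fin n) → ℝ) :
    Ex n π M (fun σ G => c * f σ G) = c * Ex n π M f := by
  unfold Ex
  simp only [mul_assoc, Finset.mul_sum]

theorem Ex_sum {k n : ℕ} (π : Fin k → ℝ) (M : Matrix (Fin k) (Fin k) ℝ) {ι : Type*}
    (s : Finset ι) (f : ι → (Fin n → Fin k) → SimpleGraph (Fin n) → ℝ) :
    Ex n π M (fun σ G => ∑ i ∈ s, f i σ G) = ∑ i ∈ s, Ex n π M (f i) := by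
  classical
  induction s using Finset.induction_on with
  | empty => simp [Ex]
  | insert a s ha ih =>
    rw [Finset.sum_insert ha, ← ih, ← Ex_add]
    congr 1
    funext σ G
    rw [Finset.sum_insert ha]

theorem edgeProb_nonneg {k : ℕ} {M : Matrix (Fin k) (Fin k) ℝ} (hM : ∀ i j, 0 ≤ M i j) (n : ℕ)
    (i j : Fin k) : 0 ≤ edgeProb n M i j := by
  unfold edgeProb
  exact le_min zero_le_one (div_nonneg (hM i j) (Nat.cast_nonneg n))

theorem edgeProb_le_one {k : ℕ} (M : Matrix (Fin k) (Fin k) ℝ) (n : ℕ)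
    (i j : Fin k) : edgeProb n M i j ≤ 1 := min_le_left _ _

theorem condProb_nonneg {k : ℕ} {M : Matrix (Fin k) (Fin k) ℝ} (hM : ∀ i j, 0 ≤ M i j) (n : ℕ)
    (G : SimpleGraph (Fin n)) (σ : Fin n → Fin k) : 0 ≤ condProb n M G σ := by
  unfold condProb
  apply Finset.prod_nonneg
  intro p _
  split_ifs
  · exact edgeProb_nonneg hM n _ _
  · linarith [edgeProb_le_one M n (σ p.1) (σ p.2)]

theorem joint_nonneg {k : ℕ} {π : Fin k → ℝ} (hπ : ∀ i, 0 < π i)
    {M : Matrix (Fin k) (Fin k) ℝ} (hM : ∀ i j, 0 ≤ M i j) (n : ℕ)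
    (G : SimpleGraph (Fin n)) (σ : Fin n → Fin k) : 0 ≤ joint n π M σ G :=
  mul_nonneg (Finset.prod_nonneg fun _ _ => (hπ _).le) (condProb_nonneg hM n G σ)

theorem Ex_mono {k n : ℕ} {π : Fin k → ℝ} (hπ : ∀ i, 0 < π i)
    {M : Matrix (Fin k) (Fin k) ℝ} (hM : ∀ i j, 0 ≤ M i j)
    (f g : (Fin n → Fin k) → SimpleGraph (Fin n) → ℝ) (h : ∀ σ G, f σ G ≤ g σ G) :
    Ex n π M f ≤ Ex n π M g := by
  unfold Ex
  apply Finset.sum_le_sum
  intro σ _
  apply Finset.sum_le_sum
  intro G _
  exact mul_le_mul_of_nonneg_right (h σ G) (joint_nonneg hπ hM n G σ)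

open Classical in
theorem prob_eq {k n : ℕ} (π : Fin k → ℝ) (M : Matrix (Fin k) (Fin k) ℝ)
    (E : (Fin n → Fin k) → SimpleGraph (Fin n) → Prop) :
    prob n π M E = Ex n π M (fun σ G => if E σ G then 1 else 0) := by
  unfold prob Ex
  simp

theorem prob_mono {k n : ℕ} {π : Fin k → ℝ} (hπ : ∀ i, 0 < π i)
    {M : Matrix (Fin k) (Fin k) ℝ} (hM : ∀ i j, 0 ≤ M i j)
    (E F : (Fin n → Fin k) → SimpleGraph (Fin n) → Prop) (h : ∀ σ G, E σ G → F σ G) :
    prob n π M E ≤ prob n π M F := by
  classical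
  rw [prob_eq, prob_eq]
  apply Ex_mono hπ hM
  intro σ G
  by_cases h1 : E σ G
  · simp [h1, h σ G h1]
  · by_cases h2 : F σ G <;> simp [h1, h2]

theorem prob_le_one {k n : ℕ} {π : Fin k → ℝ} (hπ : ∀ i, 0 < π i) (hπ1 : ∑ i, π i = 1)
    {M : Matrix (Fin k) (Fin k) ℝ} (hM : ∀ i j, 0 ≤ M i j)
    (E : (Fin n → Fin k) → SimpleGraph (Fin n) → Prop) :
    prob n π M E ≤ 1 := by
  classical
  rw [prob_eq]
  refine le_trans (Ex_mono hπ hM _ (fun _ _ => 1) ?_) (le_of_eq (Ex_one (n := n) hπ1 M))
  intro σ G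
  split_ifs <;> norm_num

theorem prob_and {k n : ℕ} {π : Fin k → ℝ} (hπ : ∀ i, 0 < π i) (hπ1 : ∑ i, π i = 1)
    {M : Matrix (Fin k) (Fin k) ℝ} (hM : ∀ i j, 0 ≤ M i j)
    (E F : (Fin n → Fin k) → SimpleGraph (Fin n) → Prop) :
    prob n π M E + prob n π M F - 1 ≤ prob n π M (fun σ G => E σ G ∧ F σ G) := by
  classical
  have h0 : prob n π M (fun σ G => E σ G ∧ F σ G) =
      Ex n π M (fun σ G => (if E σ G ∧ F σ G then (1 : ℝ) else 0)) := by
    rw [prob_eq]
    congr!
  rw [h0, prob_eq, prob_eq]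
  have h1 := Ex_one (n := n) hπ1 M
  have h2 : Ex n π M (fun σ G => (if E σ G then (1 : ℝ) else 0) + (if F σ G then 1 else 0)) ≤
      Ex n π M (fun σ G => (if E σ G ∧ F σ G then (1 : ℝ) else 0) + 1) := by
    apply Ex_mono hπ hM
    intro σ G
    by_cases h1 : E σ G <;> by_cases h2 : F σ G <;> simp [h1, h2]
  rw [Ex_add, Ex_add, h1] at h2
  linarith

theorem tendsto_prob_and {k : ℕ} {π : Fin k → ℝ} (hπ : ∀ i, 0 < π i) (hπ1 : ∑ i, π i = 1)
    {M : Matrix (Fin k) (Fin k) ℝ} (hM : ∀ i j, 0 ≤ M i j)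
    (E F : (n : ℕ) → (Fin n → Fin k) → SimpleGraph (Fin n) → Prop)
    (hE : Tendsto (fun n => prob n π M (E n)) atTop (𝓝 1))
    (hF : Tendsto (fun n => prob n π M (F n)) atTop (𝓝 1)) :
    Tendsto (fun n => prob n π M (fun σ G => E n σ G ∧ F n σ G)) atTop (𝓝 1) := by
  have h : Tendsto (fun n => prob n π M (E n) + prob n π M (F n) - 1) atTop (𝓝 1) := by
    have := (hE.add hF).sub_const 1
    simpa using this
  exact tendsto_of_tendsto_of_tendsto_of_le_of_le h tendsto_const_nhds
    (fun n => prob_and hπ hπ1 hM _ _) (fun n => prob_le_one hπ hπ1 hM _)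

theorem tendsto_prob_mono {k : ℕ} {π : Fin k → ℝ} (hπ : ∀ i, 0 < π i) (hπ1 : ∑ i, π i = 1)
    {M : Matrix (Fin k) (Fin k) ℝ} (hM : ∀ i j, 0 ≤ M i j)
    (E F : (n : ℕ) → (Fin n → Fin k) → SimpleGraph (Fin n) → Prop)
    (hE : Tendsto (fun n => prob n π M (E n)) atTop (𝓝 1))
    (h : ∀ᶠ n in atTop, ∀ σ G, E n σ G → F n σ G) :
    Tendsto (fun n => prob n π M (F n)) atTop (𝓝 1) := by
  refine tendsto_of_tendsto_of_tendsto_of_le_of_le' hE tendsto_const_nhds ?_
    (Filter.Eventually.of_forall fun n => prob_le_one hπ hπ1 hM _)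
  filter_upwards [h] with n hn
  exact prob_mono hπ hM _ _ hn

theorem prob_label_one {k n : ℕ} {π : Fin k → ℝ} (hπ : ∑ i, π i = 1)
    (M : Matrix (Fin k) (Fin k) ℝ) (i : Fin k) (v : Fin n) :
    prob n π M (fun σ _ => σ v = i) = π i := by
  rw [prob_eq, ← Ex_label_one hπ M i v]
  congr!

theorem prob_label_two {k n : ℕ} {π : Fin k → ℝ} (hπ : ∑ i, π i = 1)
    (M : Matrix (Fin k) (Fin k) ℝ) (i : Fin k) (v w : Fin n) (hvw : v ≠ w) :
    prob n π M (fun σ _ => σ v = i ∧ σ w = i) = π i ^ 2 := by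
  rw [prob_eq, ← Ex_label_two hπ M i v w hvw]
  congr!

theorem prob_iso_one {k n : ℕ} {π : Fin k → ℝ} {M : Matrix (Fin k) (Fin k) ℝ} (hM : M.IsSymm)
    (i : Fin k) (v : Fin n) :
    prob n π M (fun σ G => σ v = i ∧ isoSet G {v}) =
      π i * (∑ j, π j * (1 - edgeProb n M j i)) ^ (n - 1) := by
  rw [prob_eq, ← Ex_iso_one hM i v]
  congr!

theorem prob_iso_two {k n : ℕ} {π : Fin k → ℝ} {M : Matrix (Fin k) (Fin k) ℝ} (hM : M.IsSymm)
    (i : Fin k) (v w : Fin n) (hvw : v ≠ w) :
    prob n π M (fun σ G => (σ v = i ∧ isoSet G {v}) ∧ (σ w = i ∧ isoSet G {w})) =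
      π i ^ 2 * (1 - edgeProb n M i i) *
        (∑ j, π j * (1 - edgeProb n M j i) ^ 2) ^ (n - 2) := by
  rw [prob_eq, ← Ex_iso_two hM i v w hvw]
  congr!

open Classical in
/-- The second moment method. -/
theorem second_moment_aux {k : ℕ} {π : Fin k → ℝ} (hπ : ∀ i, 0 < π i) (hπ1 : ∑ i, π i = 1)
    {M : Matrix (Fin k) (Fin k) ℝ} (hM : ∀ i j, 0 ≤ M i j)
    (A : (n : ℕ) → Fin n → (Fin n → Fin k) → SimpleGraph (Fin n) → Prop)
    (a b : ℕ → ℝ) (α : ℝ)
    (h1 : ∀ n v, Ex n π M (fun σ G => if A n v σ G then 1 else 0) = a n)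
    (h2 : ∀ n v w, v ≠ w →
      Ex n π M (fun σ G => if A n v σ G ∧ A n w σ G then 1 else 0) = b n)
    (ha : Tendsto a atTop (𝓝 α)) (hb : Tendsto b atTop (𝓝 (α ^ 2))) (δ : ℝ) (hδ : 0 < δ) :
    Tendsto (fun n => prob n π M (fun σ G =>
      |((Finset.univ.filter (fun v => A n v σ G)).card : ℝ) / n - α| < δ)) atTop (𝓝 1) := by
  -- second moment
  have hsm : ∀ n : ℕ, 0 < n → Ex n π M (fun σ G =>
      (((Finset.univ.filter (fun v => A n v σ G)).card : ℝ) / n - α) ^ 2) =
      (a n + (n - 1) * b n) / n - 2 * α * a n + α ^ 2 := by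
    intro n hn
    have hn' : (n : ℝ) ≠ 0 := by positivity
    have e1 : (fun (σ : Fin n → Fin k) (G : SimpleGraph (Fin n)) =>
      (((Finset.univ.filter (fun v => A n v σ G)).card : ℝ) / n - α) ^ 2) =
      fun σ G => (1 / (n : ℝ) ^ 2) * (∑ v : Fin n, ∑ w : Fin n,
        (if A n v σ G ∧ A n w σ G then (1 : ℝ) else 0)) +
        ((-2 * α / n) * (∑ v : Fin n, (if A n v σ G then (1 : ℝ) else 0)) + α ^ 2 * 1) := by
      funext σ G
      have c1 : ((Finset.univ.filter (fun v => A n v σ G)).card : ℝ) =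
          ∑ v : Fin n, (if A n v σ G then (1 : ℝ) else 0) := by
        simp
      have c2 : ∑ v : Fin n, ∑ w : Fin n, (if A n v σ G ∧ A n w σ G then (1 : ℝ) else 0) =
          (∑ v : Fin n, (if A n v σ G then (1 : ℝ) else 0)) ^ 2 := by
        rw [sq, Finset.sum_mul_sum]
        apply Finset.sum_congr rfl
        intro v _
        apply Finset.sum_congr rfl
        intro w _
        by_cases hv : A n v σ G <;> by_cases hw : A n w σ G <;> simp [hv, hw]
      rw [c1, c2]
      field_simp
      ring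
    rw [e1, Ex_add, Ex_add, Ex_smul, Ex_smul, Ex_smul, Ex_one hπ1, Ex_sum, Ex_sum]
    simp_rw [Ex_sum]
    have s1 : ∑ v : Fin n, Ex n π M (fun σ G => if A n v σ G then (1 : ℝ) else 0) = n * a n := by
      rw [Finset.sum_congr rfl (fun v _ => h1 n v)]
      simp
    have s2 : ∑ v : Fin n, ∑ w : Fin n,
        Ex n π M (fun σ G => if A n v σ G ∧ A n w σ G then (1 : ℝ) else 0) =
        n * (a n + (n - 1) * b n) := by
      have : ∀ v : Fin n, ∑ w : Fin n,
          Ex n π M (fun σ G => if A n v σ G ∧ A n w σ G then (1 : ℝ) else 0) =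
          a n + (n - 1) * b n := by
        intro v
        rw [← Finset.add_sum_erase Finset.univ _ (Finset.mem_univ v)]
        congr 1
        · simpa using h1 n v
        · rw [Finset.sum_congr rfl (fun w hw => h2 n v w (Finset.ne_of_mem_erase hw).symm)]
          rw [Finset.sum_const, Finset.card_erase_of_mem (Finset.mem_univ v)]
          simp only [Finset.card_univ, Fintype.card_fin, nsmul_eq_mul]
          rw [Nat.cast_sub hn]
          simp
      rw [Finset.sum_congr rfl (fun v _ => this v)]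
      simp only [Finset.sum_const, Finset.card_univ, Fintype.card_fin, nsmul_eq_mul]
    rw [s1, s2]
    field_simp
    ring
  have hlim : Tendsto (fun n : ℕ => (a n + ((n : ℝ) - 1) * b n) / n - 2 * α * a n + α ^ 2) atTop
      (𝓝 0) := by
    have hinv : Tendsto (fun n : ℕ => (1 : ℝ) / n) atTop (𝓝 0) := tendsto_one_div_atTop_nhds_zero_nat
    have h3 : Tendsto (fun n : ℕ => (1 / (n : ℝ)) * a n + (1 - 1 / (n : ℝ)) * b n
        - 2 * α * a n + α ^ 2) atTop (𝓝 (0 * α + (1 - 0) * α ^ 2 - 2 * α * α + α ^ 2)) :=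
      (((hinv.mul ha).add ((tendsto_const_nhds.sub hinv).mul hb)).sub
        (ha.const_mul (2 * α))).add_const _
    have h4 : (0 * α + (1 - 0) * α ^ 2 - 2 * α * α + α ^ 2) = 0 := by ring
    rw [h4] at h3
    refine h3.congr' ?_
    filter_upwards [Filter.eventually_gt_atTop 0] with n hn
    have hn' : (n : ℝ) ≠ 0 := by positivity
    field_simp
  -- Chebyshev
  have hcheb : ∀ n : ℕ, 0 < n → 1 - ((a n + ((n : ℝ) - 1) * b n) / n - 2 * α * a n + α ^ 2) / δ ^ 2
      ≤ prob n π M (fun σ G =>
      |((Finset.univ.filter (fun v => A n v σ G)).card : ℝ) / n - α| < δ) := by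
    intro n hn
    rw [← hsm n hn, prob_eq]
    have h5 : Ex n π M (fun _ _ => (1 : ℝ)) ≤ Ex n π M (fun σ G =>
        (if |((Finset.univ.filter (fun v => A n v σ G)).card : ℝ) / n - α| < δ then (1 : ℝ)
          else 0) + (1 / δ ^ 2) *
          ((((Finset.univ.filter (fun v => A n v σ G)).card : ℝ) / n - α) ^ 2)) := by
      apply Ex_mono hπ hM
      intro σ G
      split_ifs with h6
      · have : 0 ≤ (1 / δ ^ 2) *
          ((((Finset.univ.filter (fun v => A n v σ G)).card : ℝ) / n - α) ^ 2) := by positivity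
        linarith
      · push Not at h6
        have h7 : δ ^ 2 ≤ (((Finset.univ.filter (fun v => A n v σ G)).card : ℝ) / n - α) ^ 2 := by
          rw [← sq_abs (((Finset.univ.filter (fun v => A n v σ G)).card : ℝ) / n - α)]
          exact pow_le_pow_left₀ hδ.le h6 2
        rw [zero_add, one_div, inv_mul_eq_div, le_div_iff₀ (by positivity)]
        linarith
    rw [Ex_one hπ1, Ex_add, Ex_smul] at h5
    rw [div_eq_inv_mul, ← one_div]
    linarith
  have hlim2 : Tendsto (fun n : ℕ => 1 - ((a n + ((n : ℝ) - 1) * b n) / n - 2 * α * a n + α ^ 2)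
      / δ ^ 2) atTop (𝓝 1) := by
    have := (hlim.div_const (δ ^ 2)).const_sub 1
    simpa using this
  refine tendsto_of_tendsto_of_tendsto_of_le_of_le' hlim2 tendsto_const_nhds ?_
    (Filter.Eventually.of_forall fun n => prob_le_one hπ hπ1 hM _)
  filter_upwards [Filter.eventually_gt_atTop 0] with n hn
  exact hcheb n hn

/-- The second moment method, for arbitrary decidability instances. -/
theorem second_moment {k : ℕ} {π : Fin k → ℝ} (hπ : ∀ i, 0 < π i) (hπ1 : ∑ i, π i = 1)
    {M : Matrix (Fin k) (Fin k) ℝ} (hM : ∀ i j, 0 ≤ M i j)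
    (A : (n : ℕ) → Fin n → (Fin n → Fin k) → SimpleGraph (Fin n) → Prop)
    [hdec : ∀ n v σ G, Decidable (A n v σ G)]
    (a b : ℕ → ℝ) (α : ℝ)
    (h1 : ∀ n v, prob n π M (fun σ G => A n v σ G) = a n)
    (h2 : ∀ n v w, v ≠ w → prob n π M (fun σ G => A n v σ G ∧ A n w σ G) = b n)
    (ha : Tendsto a atTop (𝓝 α)) (hb : Tendsto b atTop (𝓝 (α ^ 2))) (δ : ℝ) (hδ : 0 < δ) :
    Tendsto (fun n => prob n π M (fun σ G =>
      |((Finset.univ.filter (fun v => A n v σ G)).card : ℝ) / n - α| < δ)) atTop (𝓝 1) := by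
  classical
  have h := second_moment_aux hπ hπ1 hM A a b α
    (fun n v => by rw [← h1 n v, prob_eq])
    (fun n v w hvw => by rw [← h2 n v w hvw, prob_eq]; congr!) ha hb δ hδ
  refine h.congr (fun n => ?_)
  congr 1
  funext σ G
  congr!

/-! ### Limits for diagonal matrices -/

theorem tendsto_pow_sub {g : ℕ → ℝ} {t : ℝ}
    (hg : Tendsto (fun n : ℕ => (n : ℝ) * g n) atTop (𝓝 t)) (c : ℕ) :
    Tendsto (fun n : ℕ => (1 + g n) ^ (n - c)) atTop (𝓝 (Real.exp t)) := by
  have h0 : Tendsto g atTop (𝓝 0) := by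
    have h1 : Tendsto (fun n : ℕ => (1 / (n : ℝ)) * ((n : ℝ) * g n)) atTop (𝓝 (0 * t)) :=
      tendsto_one_div_atTop_nhds_zero_nat.mul hg
    rw [zero_mul] at h1
    refine h1.congr' ?_
    filter_upwards [Filter.eventually_gt_atTop 0] with n hn
    have hn' : (n : ℝ) ≠ 0 := by positivity
    field_simp
  have h2 : Tendsto (fun n => (1 + g n) ^ c) atTop (𝓝 1) := by
    have := (h0.const_add 1).pow c
    simpa using this
  have h3 := (Real.tendsto_one_add_pow_exp_of_tendsto hg).div h2 one_ne_zero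
  rw [div_one] at h3
  refine h3.congr' ?_
  have h4 : ∀ᶠ n in atTop, (1 + g n) ≠ 0 := by
    have h5 : Tendsto (fun n => 1 + g n) atTop (𝓝 1) := by simpa using h0.const_add 1
    exact h5.eventually_ne one_ne_zero
  filter_upwards [h4, Filter.eventually_ge_atTop c] with n hn hc
  simp only [Pi.div_apply]
  rw [div_eq_iff (pow_ne_zero _ hn), ← pow_add, Nat.sub_add_cancel hc]

theorem edgeProb_diag {k : ℕ} (n : ℕ) (m : Fin k → ℝ) (i j : Fin k)
    (hn : m i ≤ n) :
    edgeProb n (Matrix.diagonal m) i j = if i = j then m i / n else 0 := by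
  unfold edgeProb
  by_cases h : i = j
  · subst h
    rw [Matrix.diagonal_apply_eq, if_pos rfl, min_eq_right]
    rcases Nat.eq_zero_or_pos n with h0 | h0
    · subst h0; simp
    · rw [div_le_one (by positivity)]; exact hn
  · rw [Matrix.diagonal_apply_ne _ h, if_neg h]
    simp

open Classical in
theorem tendsto_iso {k : ℕ} {π : Fin k → ℝ} (hπ : ∀ i, 0 < π i) (hπ1 : ∑ i, π i = 1)
    (m : Fin k → ℝ) (hm : ∀ i, 0 ≤ m i) (i : Fin k) (δ : ℝ) (hδ : 0 < δ) :
    Tendsto (fun n => prob n π (Matrix.diagonal m) (fun σ G =>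
      |((Finset.univ.filter (fun v => σ v = i ∧ isoSet G {v})).card : ℝ) / n
        - π i * Real.exp (-(π i * m i))| < δ)) atTop (𝓝 1) := by
  have hM : ∀ a b, 0 ≤ Matrix.diagonal m a b := by
    intro a b
    by_cases h : a = b
    · subst h; rw [Matrix.diagonal_apply_eq]; exact hm a
    · rw [Matrix.diagonal_apply_ne _ h]
  have hS : (Matrix.diagonal m).IsSymm := Matrix.isSymm_diagonal m
  -- large n
  obtain ⟨N, hN⟩ : ∃ N : ℕ, ∀ n ≥ N, ∀ j, m j ≤ (n : ℝ) := by
    obtain ⟨N, hN⟩ := exists_nat_ge (∑ j, m j)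
    refine ⟨N, fun n hn j => ?_⟩
    have h1 : m j ≤ ∑ j, m j := Finset.single_le_sum (fun a _ => hm a) (Finset.mem_univ j)
    have h2 : (N : ℝ) ≤ n := by exact_mod_cast hn
    linarith
  refine second_moment hπ hπ1 hM (fun n v σ G => σ v = i ∧ isoSet G {v})
    (fun n => π i * (∑ j, π j * (1 - edgeProb n (Matrix.diagonal m) j i)) ^ (n - 1))
    (fun n => π i ^ 2 * (1 - edgeProb n (Matrix.diagonal m) i i) *
        (∑ j, π j * (1 - edgeProb n (Matrix.diagonal m) j i) ^ 2) ^ (n - 2))
    (π i * Real.exp (-(π i * m i))) (fun n v => prob_iso_one hS i v)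
    (fun n v w hvw => prob_iso_two hS i v w hvw) ?_ ?_ δ hδ
  · apply Tendsto.const_mul
    have h1 : Tendsto (fun n : ℕ => (n : ℝ) * (-(π i * m i) / n)) atTop (𝓝 (-(π i * m i))) := by
      refine tendsto_const_nhds.congr' ?_
      filter_upwards [Filter.eventually_gt_atTop 0] with n hn
      have hn' : (n : ℝ) ≠ 0 := by positivity
      field_simp
    refine (tendsto_pow_sub h1 1).congr' ?_
    filter_upwards [Filter.eventually_ge_atTop N] with n hn
    congr 1
    have h2 : ∀ j, π j * (1 - edgeProb n (Matrix.diagonal m) j i) =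
        π j - (if j = i then π j * (m j / n) else 0) := by
      intro j
      rw [edgeProb_diag n m j i (hN n hn j)]
      split_ifs <;> ring
    rw [Finset.sum_congr rfl (fun j _ => h2 j), Finset.sum_sub_distrib, hπ1]
    simp
    ring
  · have h0 : (π i * Real.exp (-(π i * m i))) ^ 2 = π i ^ 2 * 1 * Real.exp (-(2 * (π i * m i))) := by
      rw [mul_pow, mul_one, sq (Real.exp _), ← Real.exp_add]
      congr 2
      ring
    rw [h0]
    apply Tendsto.mul
    · apply Tendsto.const_mul
      have h1 : Tendsto (fun n : ℕ => 1 - m i / (n : ℝ)) atTop (𝓝 (1 - 0)) :=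
        (tendsto_const_div_atTop_nhds_zero_nat (m i)).const_sub 1
      rw [sub_zero] at h1
      refine h1.congr' ?_
      filter_upwards [Filter.eventually_ge_atTop N] with n hn
      rw [edgeProb_diag n m i i (hN n hn i), if_pos rfl]
    · have h1 : Tendsto (fun n : ℕ => (n : ℝ) * (-(2 * (π i * m i)) / n + π i * (m i / n) ^ 2)) atTop
          (𝓝 (-(2 * (π i * m i)))) := by
        have h3 : Tendsto (fun n : ℕ => -(2 * (π i * m i)) + π i * m i ^ 2 * (1 / (n : ℝ))) atTop
            (𝓝 (-(2 * (π i * m i)) + π i * m i ^ 2 * 0)) :=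
          (tendsto_one_div_atTop_nhds_zero_nat.const_mul _).const_add _
        rw [mul_zero, add_zero] at h3
        refine h3.congr' ?_
        filter_upwards [Filter.eventually_gt_atTop 0] with n hn
        have hn' : (n : ℝ) ≠ 0 := by positivity
        field_simp
      refine (tendsto_pow_sub h1 2).congr' ?_
      filter_upwards [Filter.eventually_ge_atTop N] with n hn
      congr 1
      have h2 : ∀ j, π j * (1 - edgeProb n (Matrix.diagonal m) j i) ^ 2 =
          π j - (if j = i then π j * (2 * (m j / n) - (m j / n) ^ 2) else 0) := by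
        intro j
        rw [edgeProb_diag n m j i (hN n hn j)]
        split_ifs <;> ring
      rw [Finset.sum_congr rfl (fun j _ => h2 j), Finset.sum_sub_distrib, hπ1]
      simp
      ring

theorem tendsto_label {k : ℕ} {π : Fin k → ℝ} (hπ : ∀ i, 0 < π i) (hπ1 : ∑ i, π i = 1)
    {M : Matrix (Fin k) (Fin k) ℝ} (hM : ∀ i j, 0 ≤ M i j)
    (i : Fin k) (δ : ℝ) (hδ : 0 < δ) :
    Tendsto (fun n => prob n π M (fun σ _ =>
      |((Finset.univ.filter (fun v => σ v = i)).card : ℝ) / n - π i| < δ)) atTop (𝓝 1) := by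
  refine second_moment hπ hπ1 hM (fun n v σ G => σ v = i)
    (fun n => π i) (fun n => π i ^ 2) (π i) (fun n v => prob_label_one hπ1 M i v)
    (fun n v w hvw => prob_label_two hπ1 M i v w hvw) tendsto_const_nhds tendsto_const_nhds δ hδ

/-! ### The maximum-likelihood estimator -/

open Classical in
theorem condProb_split {k n : ℕ} {M : Matrix (Fin k) (Fin k) ℝ} (hM : M.IsSymm)
    (G : SimpleGraph (Fin n)) (σ : Fin n → Fin k) (v : Fin n) (hv : isoSet G {v}) :
    condProb n M G σ = (∏ p ∈ pairs n, if p.1 = v ∨ p.2 = v then 1 else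
      if G.Adj p.1 p.2 then edgeProb n M (σ p.1) (σ p.2)
        else 1 - edgeProb n M (σ p.1) (σ p.2)) *
      ∏ u ∈ Finset.univ.erase v, (1 - edgeProb n M (σ u) (σ v)) := by
  rw [← prod_iso_one hM σ v, ← Finset.prod_mul_distrib]
  unfold condProb
  apply Finset.prod_congr rfl
  intro p _
  simp only [Finset.mem_singleton]
  by_cases h : p.1 = v ∨ p.2 = v
  · rw [if_pos h, if_pos h, one_mul, if_neg]
    rcases h with h | h
    · rw [h]; exact hv v (by simp) _
    · rw [h]; exact fun hh => hv v (by simp) _ hh.symm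
  · rw [if_neg h, if_neg h, mul_one]

open Classical in
/-- Moving an isolated vertex `v` to the class `c` cannot increase the likelihood at a maximum. -/
theorem move_isolated {k n : ℕ} (m : Fin k → ℝ) (hm : ∀ i, 0 ≤ m i) (hmn : ∀ i, m i < n)
    (G : SimpleGraph (Fin n)) (s : Fin n → Fin k)
    (hs : ∀ σ', condProb n (Matrix.diagonal m) G σ' ≤ condProb n (Matrix.diagonal m) G s)
    (hpos : 0 < condProb n (Matrix.diagonal m) G s) (v : Fin n) (hv : isoSet G {v})
    (c : Fin k) (hc : c ≠ s v) :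
    (1 - m c / n) ^ (Finset.univ.filter (fun u => s u = c)).card ≤
      (1 - m (s v) / n) ^ ((Finset.univ.filter (fun u => s u = s v)).card - 1) := by
  have hS : (Matrix.diagonal m).IsSymm := Matrix.isSymm_diagonal m
  have h1 := hs (Function.update s v c)
  rw [condProb_split hS G s v hv] at h1 hpos
  rw [condProb_split hS G (Function.update s v c) v hv] at h1
  have h2 : (∏ p ∈ pairs n, if p.1 = v ∨ p.2 = v then (1 : ℝ) else
      if G.Adj p.1 p.2 then edgeProb n (Matrix.diagonal m) (Function.update s v c p.1)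
        (Function.update s v c p.2)
        else 1 - edgeProb n (Matrix.diagonal m) (Function.update s v c p.1)
        (Function.update s v c p.2)) = (∏ p ∈ pairs n, if p.1 = v ∨ p.2 = v then 1 else
      if G.Adj p.1 p.2 then edgeProb n (Matrix.diagonal m) (s p.1) (s p.2)
        else 1 - edgeProb n (Matrix.diagonal m) (s p.1) (s p.2)) := by
    apply Finset.prod_congr rfl
    intro p _
    by_cases h : p.1 = v ∨ p.2 = v
    · rw [if_pos h, if_pos h]
    · rw [if_neg h, if_neg h]
      push Not at h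
      rw [Function.update_of_ne h.1, Function.update_of_ne h.2]
  rw [h2] at h1
  have hR : 0 ≤ (∏ p ∈ pairs n, if p.1 = v ∨ p.2 = v then 1 else
      if G.Adj p.1 p.2 then edgeProb n (Matrix.diagonal m) (s p.1) (s p.2)
        else 1 - edgeProb n (Matrix.diagonal m) (s p.1) (s p.2)) := by
    apply Finset.prod_nonneg
    intro p _
    split_ifs
    · exact zero_le_one
    · apply edgeProb_nonneg
      intro a b
      by_cases h : a = b
      · subst h; rw [Matrix.diagonal_apply_eq]; exact hm a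
      · rw [Matrix.diagonal_apply_ne _ h]
    · linarith [edgeProb_le_one (Matrix.diagonal m) n (s p.1) (s p.2)]
  have hR2 : 0 < (∏ p ∈ pairs n, if p.1 = v ∨ p.2 = v then 1 else
      if G.Adj p.1 p.2 then edgeProb n (Matrix.diagonal m) (s p.1) (s p.2)
        else 1 - edgeProb n (Matrix.diagonal m) (s p.1) (s p.2)) := by
    rcases hR.lt_or_eq with h | h
    · exact h
    · rw [← h, zero_mul] at hpos
      exact absurd hpos (lt_irrefl _)
  have h3 := le_of_mul_le_mul_left h1 hR2
  have h4 : ∀ (t : Fin n → Fin k), ∏ u ∈ Finset.univ.erase v,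
      (1 - edgeProb n (Matrix.diagonal m) (t u) (t v)) =
      (1 - m (t v) / n) ^ ((Finset.univ.erase v).filter (fun u => t u = t v)).card := by
    intro t
    have h5 : ∀ u ∈ Finset.univ.erase v, (1 - edgeProb n (Matrix.diagonal m) (t u) (t v)) =
        if t u = t v then 1 - m (t v) / n else 1 := by
      intro u _
      rw [edgeProb_diag n m (t u) (t v) (hmn _).le]
      by_cases h : t u = t v
      · rw [if_pos h, if_pos h, h]
      · rw [if_neg h, if_neg h, sub_zero]
    rw [Finset.prod_congr rfl h5, Finset.prod_ite]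
    simp
  rw [h4, h4] at h3
  have h6 : ((Finset.univ.erase v).filter (fun u => Function.update s v c u =
      Function.update s v c v)) = Finset.univ.filter (fun u => s u = c) := by
    ext u
    simp only [Finset.mem_filter, Finset.mem_erase, Finset.mem_univ, and_true, true_and,
      Function.update_self]
    constructor
    · rintro ⟨h7, h8⟩
      rwa [Function.update_of_ne h7] at h8
    · intro h7
      have h8 : u ≠ v := by
        intro h9
        rw [h9] at h7
        exact hc h7.symm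
      exact ⟨h8, by rw [Function.update_of_ne h8]; exact h7⟩
  have h7 : ((Finset.univ.erase v).filter (fun u => s u = s v)) =
      (Finset.univ.filter (fun u => s u = s v)).erase v := by
    ext u
    simp only [Finset.mem_filter, Finset.mem_erase, Finset.mem_univ, and_true, true_and]
  rw [h6, h7, Finset.card_erase_of_mem (by simp), Function.update_self] at h3
  exact h3

/-! ### The example -/

/-- The prior of the example: labels `0, 1, 2` with probabilities `9/10, 1/20, 1/20`. -/
noncomputable def pri : Fin 3 → ℝ := ![9 / 10, 1 / 20, 1 / 20]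

/-- The diagonal of the connectivity matrix of the example. -/
noncomputable def dg : Fin 3 → ℝ := ![1 / 100, 1 / 100, 20]

theorem pri_pos (i : Fin 3) : 0 < pri i := by
  fin_cases i <;> norm_num [pri]

theorem pri_sum : ∑ i, pri i = 1 := by
  rw [Fin.sum_univ_three]
  have h0 : pri 0 = 9 / 10 := rfl
  have h1 : pri 1 = 1 / 20 := rfl
  have h2 : pri 2 = 1 / 20 := rfl
  rw [h0, h1, h2]
  norm_num

theorem dg_nonneg (i : Fin 3) : 0 ≤ dg i := by
  fin_cases i <;> norm_num [dg]

theorem dg_diag_nonneg (i j : Fin 3) : 0 ≤ Matrix.diagonal dg i j := by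
  by_cases h : i = j
  · subst h; rw [Matrix.diagonal_apply_eq]; exact dg_nonneg i
  · rw [Matrix.diagonal_apply_ne _ h]

theorem iSup_pri : (⨆ i, pri i) = 9 / 10 := by
  apply le_antisymm
  · apply ciSup_le
    intro i
    fin_cases i <;> norm_num [pri]
  · have : pri 0 ≤ ⨆ i, pri i := le_ciSup (Set.finite_range pri).bddAbove 0
    simpa [pri] using this

open Classical in
/-- In any graph on `n ≥ 30` vertices with few non-isolated vertices, any most likely labelling
of the example has overlap at most `3/4` with a labelling in which label `0` is frequent. -/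
theorem ml_overlap_le {n : ℕ} (hn : 30 ≤ n) (G : SimpleGraph (Fin n)) (s σ : Fin n → Fin 3)
    (hs : ∀ σ', condProb n (Matrix.diagonal dg) G σ' ≤ condProb n (Matrix.diagonal dg) G s)
    (hX : (4 / 5 : ℝ) * n ≤ ((Finset.univ.filter (fun v => σ v = 0 ∧ isoSet G {v})).card : ℝ)) :
    overlap s σ ≤ 3 / 4 := by
  have hn' : (30 : ℝ) ≤ n := by exact_mod_cast hn
  have hn0 : (0 : ℝ) < n := by linarith
  have hdn : ∀ i, dg i < n := by
    intro i
    fin_cases i <;> simp [dg] <;> linarith
  -- positivity of the maximal likelihood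
  have hpos : 0 < condProb n (Matrix.diagonal dg) G s := by
    refine lt_of_lt_of_le ?_ (hs (fun _ => 0))
    unfold condProb
    apply Finset.prod_pos
    intro p _
    rw [edgeProb_diag n dg 0 0 (hdn 0).le, if_pos rfl]
    have h1 : 0 < dg 0 / (n : ℝ) := by
      apply div_pos _ hn0
      norm_num [dg]
    have h2 : dg 0 / (n : ℝ) < 1 := by
      rw [div_lt_one hn0]; exact hdn 0
    split_ifs <;> linarith
  -- sizes of the classes
  set N : Fin 3 → ℕ := fun c => (Finset.univ.filter (fun v => s v = c)).card with hN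
  have hmove : ∀ c, (∃ v, s v = c ∧ isoSet G {v}) → ∃ c', c' ≠ c ∧ N c ≤ N c' + 1 := by
    rintro c ⟨v, hvc, hv⟩
    -- the target class
    have key : ∀ c', c' ≠ c → dg c' = 1 / 100 → N c - 1 ≤ N c' := by
      intro c' hc' hd
      have h := move_isolated dg dg_nonneg hdn G s hs hpos v hv c' (by rw [hvc]; exact hc')
      rw [hvc] at h
      have hq0 : 0 < 1 - dg c' / (n : ℝ) := by
        have : dg c' / (n : ℝ) < 1 := by
          rw [div_lt_one hn0]; exact hdn c'
        linarith
      have hq1 : 1 - dg c' / (n : ℝ) < 1 := by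
        have : 0 < dg c' / (n : ℝ) := by
          rw [hd]; positivity
        linarith
      have hle : 1 - dg c / (n : ℝ) ≤ 1 - dg c' / (n : ℝ) := by
        have : dg c' / (n : ℝ) ≤ dg c / (n : ℝ) := by
          apply div_le_div_of_nonneg_right _ hn0.le
          rw [hd]
          fin_cases c <;> norm_num [dg]
        linarith
      have hge : 0 ≤ 1 - dg c / (n : ℝ) := by
        have : dg c / (n : ℝ) < 1 := by
          rw [div_lt_one hn0]; exact hdn c
        linarith
      have h2 : (1 - dg c' / (n : ℝ)) ^ N c' ≤ (1 - dg c' / (n : ℝ)) ^ (N c - 1) :=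
        h.trans (pow_le_pow_left₀ hge hle _)
      exact (pow_le_pow_iff_right_of_lt_one₀ hq0 hq1).mp h2
    by_cases h0 : c = 0
    · refine ⟨1, by rw [h0]; decide, ?_⟩
      have := key 1 (by rw [h0]; decide) (by norm_num [dg])
      omega
    · refine ⟨0, fun h => h0 h.symm, ?_⟩
      have := key 0 (fun h => h0 h.symm) (by norm_num [dg])
      omega
  have hXn : (Finset.univ.filter (fun v => σ v = 0 ∧ isoSet G {v})).card ≤
      (Finset.univ.filter (fun v => σ v = 0)).card :=
    Finset.card_le_card (fun v hv => by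
      simp only [Finset.mem_filter, Finset.mem_univ, true_and] at hv ⊢
      exact hv.1)
  -- each class is small
  have hsmall : ∀ c, (N c : ℝ) ≤ ((n : ℝ) + 1) / 2 := by
    intro c
    by_cases hc : ∃ v, s v = c ∧ isoSet G {v}
    · obtain ⟨c', hc', hle⟩ := hmove c hc
      have h1 : N c + N c' ≤ n := by
        rw [hN]
        simp only
        rw [← Finset.card_union_of_disjoint]
        · calc _ ≤ (Finset.univ : Finset (Fin n)).card := Finset.card_le_card (Finset.subset_univ _)
            _ = n := by simp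
        · rw [Finset.disjoint_left]
          intro v hv hv'
          simp only [Finset.mem_filter, Finset.mem_univ, true_and] at hv hv'
          exact hc' (hv'.symm.trans hv)
      have h2 : 2 * N c ≤ n + 1 := by omega
      have h3 : (2 : ℝ) * N c ≤ n + 1 := by exact_mod_cast h2
      linarith
    · have h1 : N c + (Finset.univ.filter (fun v => σ v = 0 ∧ isoSet G {v})).card ≤ n := by
        rw [hN]
        simp only
        rw [← Finset.card_union_of_disjoint]
        · calc _ ≤ (Finset.univ : Finset (Fin n)).card := Finset.card_le_card (Finset.subset_univ _)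
            _ = n := by simp
        · rw [Finset.disjoint_left]
          intro v hv hv'
          simp only [Finset.mem_filter, Finset.mem_univ, true_and] at hv hv'
          exact hc ⟨v, hv, hv'.2⟩
      have h2 : (N c : ℝ) + ((Finset.univ.filter (fun v => σ v = 0 ∧ isoSet G {v})).card : ℝ) ≤ n := by
        exact_mod_cast h1
      linarith
  unfold overlap
  apply ciSup_le
  intro τ
  rw [div_le_iff₀ hn0]
  have h1 : (Finset.univ.filter (fun v => τ (s v) = σ v)).card ≤
      N (τ.symm 0) + (Finset.univ.filter (fun v => ¬ σ v = 0)).card := by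
    rw [hN]
    simp only
    refine le_trans (Finset.card_le_card ?_) (Finset.card_union_le _ _)
    intro v hv
    simp only [Finset.mem_filter, Finset.mem_univ, true_and, Finset.mem_union] at hv ⊢
    by_cases h : σ v = 0
    · left
      rw [h] at hv
      rw [← hv, Equiv.symm_apply_apply]
    · right; exact h
  have h2 : (Finset.univ.filter (fun v => σ v = 0)).card +
      (Finset.univ.filter (fun v => ¬ σ v = 0)).card = n := by
    rw [Finset.card_filter_add_card_filter_not]
    simp
  have h1' : ((Finset.univ.filter (fun v => τ (s v) = σ v)).card : ℝ) ≤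
      N (τ.symm 0) + ((Finset.univ.filter (fun v => ¬ σ v = 0)).card : ℝ) := by exact_mod_cast h1
  have h2' : ((Finset.univ.filter (fun v => σ v = 0)).card : ℝ) +
      ((Finset.univ.filter (fun v => ¬ σ v = 0)).card : ℝ) = n := by exact_mod_cast h2
  have h3' : ((Finset.univ.filter (fun v => σ v = 0 ∧ isoSet G {v})).card : ℝ) ≤
      ((Finset.univ.filter (fun v => σ v = 0)).card : ℝ) := by exact_mod_cast hXn
  have h4 := hsmall (τ.symm 0)
  linarith

open Classical in
/-- The degree-based estimator: label `2` for the non-isolated vertices, `0` for the others. -/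
noncomputable def degEst : Estimator 3 := fun _ G v => if isoSet G {v} then 0 else 2

open Classical in
theorem degEst_overlap {n : ℕ} (G : SimpleGraph (Fin n)) (σ : Fin n → Fin 3) :
    (((Finset.univ.filter (fun v => σ v = 0 ∧ isoSet G {v})).card : ℝ) +
      ((Finset.univ.filter (fun v => σ v = 2)).card : ℝ) -
      ((Finset.univ.filter (fun v => σ v = 2 ∧ isoSet G {v})).card : ℝ)) / n ≤
      overlap (degEst n G) σ := by
  have h1 : ((Finset.univ.filter (fun v => (1 : Equiv.Perm (Fin 3)) (degEst n G v) = σ v)).card : ℝ)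
      / n ≤ overlap (degEst n G) σ := by
    unfold overlap
    exact le_ciSup (f := fun τ : Equiv.Perm (Fin 3) =>
      ((Finset.univ.filter (fun v => τ (degEst n G v) = σ v)).card : ℝ) / n)
      (Set.finite_range _).bddAbove 1
  refine le_trans ?_ h1
  apply div_le_div_of_nonneg_right _ (Nat.cast_nonneg n)
  have h2 : (Finset.univ.filter (fun v => σ v = 0 ∧ isoSet G {v})).card +
      (Finset.univ.filter (fun v => σ v = 2)).card ≤
      (Finset.univ.filter (fun v => (1 : Equiv.Perm (Fin 3)) (degEst n G v) = σ v)).card +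
      (Finset.univ.filter (fun v => σ v = 2 ∧ isoSet G {v})).card := by
    rw [← Finset.card_union_of_disjoint, ← Finset.card_union_of_disjoint]
    · apply Finset.card_le_card
      intro v hv
      simp only [Finset.mem_filter, Finset.mem_univ, true_and, Finset.mem_union,
        Equiv.Perm.one_apply] at hv ⊢
      by_cases hi : isoSet G {v}
      · rcases hv with hv | hv
        · left; simp [degEst, hi, hv.1]
        · right; exact ⟨hv, hi⟩
      · rcases hv with hv | hv
        · exact absurd hv.2 hi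
        · left; simp [degEst, hi, hv]
    · rw [Finset.disjoint_left]
      intro v hv hv'
      simp only [Finset.mem_filter, Finset.mem_univ, true_and, Equiv.Perm.one_apply] at hv hv'
      simp only [degEst, hv'.2, if_true, hv'.1] at hv
      exact absurd hv (by decide)
    · rw [Finset.disjoint_left]
      intro v hv hv'
      simp only [Finset.mem_filter, Finset.mem_univ, true_and] at hv hv'
      rw [hv'] at hv
      exact absurd hv.1 (by decide)
  have h3 : ((Finset.univ.filter (fun v => σ v = 0 ∧ isoSet G {v})).card : ℝ) +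
      ((Finset.univ.filter (fun v => σ v = 2)).card : ℝ) ≤
      ((Finset.univ.filter (fun v => (1 : Equiv.Perm (Fin 3)) (degEst n G v) = σ v)).card : ℝ) +
      ((Finset.univ.filter (fun v => σ v = 2 ∧ isoSet G {v})).card : ℝ) := by
    exact_mod_cast h2
  linarith

theorem degEst_nonTrivial : NonTrivial pri (Matrix.diagonal dg) degEst := by
  classical
  refine ⟨1 / 100, by norm_num, ?_⟩
  rw [iSup_pri]
  have t0 := tendsto_iso pri_pos pri_sum dg dg_nonneg 0 (1 / 1000) (by norm_num)
  have t2 := tendsto_iso pri_pos pri_sum dg dg_nonneg 2 (1 / 1000) (by norm_num)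
  have tl := tendsto_label pri_pos pri_sum dg_diag_nonneg 2 (1 / 1000) (by norm_num)
  have t := tendsto_prob_and pri_pos pri_sum dg_diag_nonneg _ _
    (tendsto_prob_and pri_pos pri_sum dg_diag_nonneg _ _ t0 t2) tl
  refine tendsto_prob_mono pri_pos pri_sum dg_diag_nonneg _ _ t ?_
  filter_upwards [Filter.eventually_gt_atTop 0] with n hn σ G hG
  obtain ⟨⟨h0, h2⟩, hl⟩ := hG
  have hd := degEst_overlap G σ
  refine le_trans ?_ hd
  have e0 : (8919 / 10000 : ℝ) ≤ pri 0 * Real.exp (-(pri 0 * dg 0)) := by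
    have h := Real.add_one_le_exp (-(pri 0 * dg 0))
    have hp : pri 0 = 9 / 10 := by norm_num [pri]
    have hd0 : dg 0 = 1 / 100 := by norm_num [dg]
    rw [hp, hd0] at h ⊢
    nlinarith
  have e2 : pri 2 * Real.exp (-(pri 2 * dg 2)) ≤ 1 / 40 := by
    have hp : pri 2 = 1 / 20 := rfl
    have hd0 : dg 2 = 20 := rfl
    rw [hp, hd0]
    have h1 : Real.exp (-(1 / 20 * 20)) ≤ 1 / 2 := by
      have h3 : (2 : ℝ) ≤ Real.exp 1 := by
        have := Real.add_one_le_exp (1 : ℝ)
        linarith
      have h4 : (-(1 / 20 * 20) : ℝ) = -1 := by norm_num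
      rw [h4, Real.exp_neg]
      rw [inv_le_comm₀ (Real.exp_pos 1) (by norm_num)]
      norm_num
      exact h3
    linarith
  have hp2 : pri 2 = 1 / 20 := rfl
  rw [abs_lt] at h0 h2 hl
  rw [sub_div, add_div]
  rw [hp2] at hl
  linarith [h0.1, h2.2, hl.1]

theorem ml_fails (s : Estimator 3) (hs : IsML (Matrix.diagonal dg) s) :
    Tendsto (fun n => prob n pri (Matrix.diagonal dg)
      (fun σ G => overlap (s n G) σ ≤ (⨆ i, pri i) - 3 / 20)) atTop (𝓝 1) := by
  classical
  rw [iSup_pri]
  have t0 := tendsto_iso pri_pos pri_sum dg dg_nonneg 0 (1 / 1000) (by norm_num)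
  refine tendsto_prob_mono pri_pos pri_sum dg_diag_nonneg _ _ t0 ?_
  filter_upwards [Filter.eventually_ge_atTop 30] with n hn σ G h0
  have hn' : (30 : ℝ) ≤ n := by exact_mod_cast hn
  have hn0 : (0 : ℝ) < n := by linarith
  have e0 : (8919 / 10000 : ℝ) ≤ pri 0 * Real.exp (-(pri 0 * dg 0)) := by
    have h := Real.add_one_le_exp (-(pri 0 * dg 0))
    have hp : pri 0 = 9 / 10 := by norm_num [pri]
    have hd0 : dg 0 = 1 / 100 := by norm_num [dg]
    rw [hp, hd0] at h ⊢
    nlinarith
  rw [abs_lt] at h0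
  have h1 := ml_overlap_le hn G (s n G) σ (hs n G) (by
    have h2 : (4 / 5 : ℝ) ≤
        ((Finset.univ.filter (fun v => σ v = 0 ∧ isoSet G {v})).card : ℝ) / n := by
      linarith [h0.1]
    rwa [le_div_iff₀ hn0] at h2)
  linarith

theorem not_nonTrivial_of_whp {k : ℕ} {π : Fin k → ℝ} (hπ : ∀ i, 0 < π i) (hπ1 : ∑ i, π i = 1)
    {M : Matrix (Fin k) (Fin k) ℝ} (hM : ∀ i j, 0 ≤ M i j) (s : Estimator k) (c : ℝ) (hc : 0 < c)
    (h : Tendsto (fun n => prob n π M
      (fun σ G => overlap (s n G) σ ≤ (⨆ i, π i) - c)) atTop (𝓝 1)) :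
    ¬ NonTrivial π M s := by
  rintro ⟨ε, hε, h2⟩
  have h3 := tendsto_prob_and hπ hπ1 hM _ _ h h2
  have h4 : ∀ n : ℕ, prob n π M (fun σ G => overlap (s n G) σ ≤ (⨆ i, π i) - c ∧
      (⨆ i, π i) + ε ≤ overlap (s n G) σ) = 0 := by
    intro n
    unfold prob
    apply Finset.sum_eq_zero
    intro σ _
    apply Finset.sum_eq_zero
    intro G _
    rw [if_neg]
    rintro ⟨h5, h6⟩
    linarith
  rw [tendsto_congr h4] at h3
  exact absurd (tendsto_nhds_unique h3 tendsto_const_nhds) (by norm_num)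

theorem exists_isML {k : ℕ} (hk : 0 < k) (M : Matrix (Fin k) (Fin k) ℝ) :
    ∃ s : Estimator k, IsML M s := by
  have : Nonempty (Fin k) := ⟨⟨0, hk⟩⟩
  have h : ∀ (n : ℕ) (G : SimpleGraph (Fin n)), ∃ t : Fin n → Fin k, ∀ σ' : Fin n → Fin k,
      condProb n M G σ' ≤ condProb n M G t :=
    fun n G => Finite.exists_max (fun t : Fin n → Fin k => condProb n M G t)
  choose s hs using h
  exact ⟨s, hs⟩

/-- There are parameters `(k, π, M)` of the sparse stochastic block model at which some estimator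
achieves non-trivial correlation, while no maximum-likelihood estimator (whatever the tie-breaking)
does; in fact, with probability tending to `1`, every maximum-likelihood estimator has overlap
at most `max_i π_i - 3/20`. -/
theorem result :
    ∃ (k : ℕ) (π : Fin k → ℝ) (M : Matrix (Fin k) (Fin k) ℝ),
      2 ≤ k ∧ (∀ i, 0 < π i) ∧ ∑ i, π i = 1 ∧ M.IsSymm ∧ (∀ i j, 0 ≤ M i j) ∧
      (∃ s : Estimator k, NonTrivial π M s) ∧
      (∃ s : Estimator k, IsML M s) ∧
      ∀ s : Estimator k, IsML M s →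
        ¬ NonTrivial π M s ∧
        Tendsto (fun n => prob n π M (fun σ G => overlap (s n G) σ ≤ (⨆ i, π i) - 3 / 20))
          atTop (𝓝 1) := by
  refine ⟨3, pri, Matrix.diagonal dg, by norm_num, pri_pos, pri_sum, Matrix.isSymm_diagonal dg,
    dg_diag_nonneg, ⟨degEst, degEst_nonTrivial⟩, exists_isML (by norm_num) _, ?_⟩
  intro s hs
  have h := ml_fails s hs
  exact ⟨not_nonTrivial_of_whp pri_pos pri_sum dg_diag_nonneg s (3 / 20) (by norm_num) h, h⟩

end Pool.Agent.Results.MP_9b1654_pr.MLBelowThreshold
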