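import Mathlib
import Pool.Agent.H996R2.SBMMain

/-!
# Maximum likelihood can fail although detection is possible

The definitions (`prob`, `overlap`, `Estimator`, `Achieves`, `IsML`, `IsModel`, `π0`, `M0`, `Near`)
are in `Pool.Agent.H996R2.SBMDefs`.
-/

set_option autoImplicit false

open Filter Topology

namespace Pool.Agent.Results.MP_9b1654_pr.MLFails

open Pool.Agent.H996R2.SBM

/-- Let `k = 3`, `π0 = (4/5, 1/10, 1/10)`, `M0 = diag(1/100, 20, 1/100)`. For `(π0, M0)`, and for
every stochastic block model `(π, M)` all of whose entries are within `1/10000` of those of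
`(π0, M0)`: some estimator achieves non-trivial correlation; maximum-likelihood estimators exist;
none of them achieves non-trivial correlation, and the probability that the overlap of a
maximum-likelihood estimator is at least `max π - 1/50` tends to `0`. -/
theorem result :
    IsModel π0 M0 ∧ Near π0 M0 ∧
    ∀ (π : Fin 3 → ℝ) (M : Fin 3 → Fin 3 → ℝ), IsModel π M → Near π M →
      (∃ est : Estimator 3, Achieves π M est) ∧
      (∃ ml : Estimator 3, IsML M ml) ∧
      ∀ ml : Estimator 3, IsML M ml →
        ¬ Achieves π M ml ∧
        Tendsto (fun n : ℕ => prob π M n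
          (fun σ G => (⨆ i, π i) - 1 / 50 ≤ overlap (ml n G) σ)) atTop (𝓝 0) := by
  refine ⟨isModel0, near0, fun π M hIM hN => ?_⟩
  exact ⟨⟨est0, achieves0 hIM hN⟩, exists_ml (by norm_num) M,
    fun ml hml => ⟨ml_not_achieves hIM hN hml, ml_tendsto hIM hN hml⟩⟩

end Pool.Agent.Results.MP_9b1654_pr.MLFails
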